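import Mathlib
import Pool.Agent.X72.Coin

/-! A two-coin pattern race whose winning probability has two local extrema. -/

namespace Pool.Agent.Results.MP_cbbafe_pr.TwoExtrema

open Pool.Agent.X72.Coin

/-- the pattern `HT` -/
def A : List Bool := [true, false]
/-- the pattern `TTHH` -/
def B : List Bool := [false, false, true, true]

theorem hA : A ≠ [] := by decide
theorem hB : B ≠ [] := by decide

theorem uA : Unbordered A := by
  unfold Unbordered A
  decide

theorem uB : Unbordered B := by
  unfold Unbordered B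
  decide

theorem wA (p : ℝ) : wt p A = p * (1 - p) := by
  simp [wt, A]

theorem wB (p : ℝ) : wt p B = p ^ 2 * (1 - p) ^ 2 := by
  simp [wt, B]; ring

theorem tailA (p : ℝ) (hp : p ≠ 1 / 2) (n : ℕ) :
    tail A p n = (p ^ (n + 1) - (1 - p) ^ (n + 1)) / (p - (1 - p)) := by
  have hne : p - (1 - p) ≠ 0 := fun h => hp (by linarith)
  induction n using Nat.strong_induction_on with
  | _ n ih =>
    rcases Nat.lt_or_ge n 2 with h | h
    · rw [tail_short A p n h]
      have : n = 0 ∨ n = 1 := by omega
      rcases this with rfl | rfl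
      · rw [eq_div_iff hne]; ring
      · rw [eq_div_iff hne]; ring
    · obtain ⟨m, rfl⟩ : ∃ m, n = m + 2 := ⟨n - 2, by omega⟩
      have h1 := tail_rec A hA uA p m 1 rfl
      rw [show m + 1 + 1 = m + 2 by ring] at h1
      rw [h1, ih (m + 1) (by omega), ih m (by omega), wA]
      field_simp
      ring

/-- the generating function of the tail of `TTHH` -/
theorem genB (p : ℝ) (h0 : 0 ≤ p) (h1 : p ≤ 1) (z : ℝ) (hz0 : 0 < z) (hz1 : z < 1) :
    Summable (fun n => tail B p n * z ^ n) ∧
      (∑' n, tail B p n * z ^ n) * (1 - z + p ^ 2 * (1 - p) ^ 2 * z ^ 4) = 1 := by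
  have hs : Summable (fun n => tail B p n * z ^ n) := by
    apply Summable.of_nonneg_of_le (fun n => mul_nonneg (tail_nonneg B h0 h1 n) (by positivity))
      (fun n => ?_) (summable_geometric_of_lt_one hz0.le hz1)
    have := tail_le_one B h0 h1 n
    have hz : 0 ≤ z ^ n := by positivity
    nlinarith
  refine ⟨hs, ?_⟩
  have e0 : tail B p 0 = 1 := tail_short B p 0 (by decide)
  have e1 : tail B p 1 = 1 := tail_short B p 1 (by decide)
  have e2 : tail B p 2 = 1 := tail_short B p 2 (by decide)
  have e3 : tail B p 3 = 1 := tail_short B p 3 (by decide)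
  have s3 : ∑' n, tail B p (n + 3) * z ^ (n + 3) =
      (∑' n, tail B p n * z ^ n) - (1 + z + z ^ 2) := by
    have := hs.sum_add_tsum_nat_add 3
    simp only [Finset.sum_range_succ, Finset.sum_range_zero, e0, e1, e2] at this
    linarith
  have s4 : ∑' n, tail B p (n + 4) * z ^ (n + 4) =
      (∑' n, tail B p n * z ^ n) - (1 + z + z ^ 2 + z ^ 3) := by
    have := hs.sum_add_tsum_nat_add 4
    simp only [Finset.sum_range_succ, Finset.sum_range_zero, e0, e1, e2, e3] at this
    linarith
  have hs3 : Summable (fun n => tail B p (n + 3) * z ^ (n + 3)) :=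
    (summable_nat_add_iff (f := fun n => tail B p n * z ^ n) 3).mpr hs
  have hrec : ∀ n, tail B p (n + 4) * z ^ (n + 4) =
      z * (tail B p (n + 3) * z ^ (n + 3)) -
        p ^ 2 * (1 - p) ^ 2 * z ^ 4 * (tail B p n * z ^ n) := by
    intro n
    have h := tail_rec B hB uB p n 3 rfl
    rw [show n + 3 + 1 = n + 4 by ring] at h
    rw [h, wB]
    ring
  have s5 : ∑' n, tail B p (n + 4) * z ^ (n + 4) =
      z * (∑' n, tail B p (n + 3) * z ^ (n + 3)) -
        p ^ 2 * (1 - p) ^ 2 * z ^ 4 * ∑' n, tail B p n * z ^ n := by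
    rw [tsum_congr hrec, Summable.tsum_sub (hs3.mul_left z) (hs.mul_left _), tsum_mul_left,
      tsum_mul_left]
  rw [s3, s4] at s5
  linarith

/-- closed form for the generating function -/
noncomputable def S (p z : ℝ) : ℝ := 1 / (1 - z + p ^ 2 * (1 - p) ^ 2 * z ^ 4)

/-- closed form for the winning probability -/
noncomputable def Wc (p : ℝ) : ℝ :=
  1 / 2 * (p * (1 - p)) / (p - (1 - p)) *
    ((S p p - 1) * (1 + 1 / p) - (S p (1 - p) - 1) * (1 + 1 / (1 - p)))

theorem W_eq (p : ℝ) (h0 : 0 < p) (h1 : p < 1) (hp : p ≠ 1 / 2) : W A B p = Wc p := by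
  have hne : p - (1 - p) ≠ 0 := fun h => hp (by linarith)
  have hq0 : 0 < 1 - p := by linarith
  have hq1 : 1 - p < 1 := by linarith
  obtain ⟨sp, gp⟩ := genB p h0.le h1.le p h0 h1
  obtain ⟨sq, gq⟩ := genB p h0.le h1.le (1 - p) hq0 hq1
  have Sp : ∑' n, tail B p n * p ^ n = S p p := by
    unfold S
    apply eq_one_div_of_mul_eq_one_left
    exact gp
  have Sq : ∑' n, tail B p n * (1 - p) ^ n = S p (1 - p) := by
    unfold S
    apply eq_one_div_of_mul_eq_one_left
    exact gq
  have e0 : tail B p 0 = 1 := tail_short B p 0 (by decide)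
  have e1 : tail B p 1 = 1 := tail_short B p 1 (by decide)
  -- pmf of A
  have pA0 : pmf A p 0 = 0 := pmf_zero A hA p
  have pA1 : pmf A p 1 = 0 := by
    rw [pmf_succ, tail_short A p 0 (by decide), tail_short A p 1 (by decide)]; ring
  have pA : ∀ n, pmf A p (n + 2) = tail A p n * (p * (1 - p)) := by
    intro n
    have := pmf_unbordered A hA uA p n
    rw [wA] at this
    exact this
  -- shifted sums
  have shift : ∀ z : ℝ, Summable (fun n => tail B p n * z ^ n) →
      Summable (fun n => tail B p (n + 1) * z ^ (n + 1)) ∧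
      Summable (fun n => tail B p (n + 2) * z ^ (n + 2)) ∧
      ∑' n, tail B p (n + 1) * z ^ (n + 1) = (∑' n, tail B p n * z ^ n) - 1 ∧
      ∑' n, tail B p (n + 2) * z ^ (n + 2) = (∑' n, tail B p n * z ^ n) - 1 - z := by
    intro z hs
    refine ⟨(summable_nat_add_iff (f := fun n => tail B p n * z ^ n) 1).mpr hs,
      (summable_nat_add_iff (f := fun n => tail B p n * z ^ n) 2).mpr hs, ?_, ?_⟩
    · have := hs.sum_add_tsum_nat_add 1
      simp only [Finset.sum_range_succ, Finset.sum_range_zero, e0] at this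
      linarith
    · have := hs.sum_add_tsum_nat_add 2
      simp only [Finset.sum_range_succ, Finset.sum_range_zero, e0, e1] at this
      linarith
  obtain ⟨sp1, sp2, tp1, tp2⟩ := shift p sp
  obtain ⟨sq1, sq2, tq1, tq2⟩ := shift (1 - p) sq
  have hp0 : p ≠ 0 := h0.ne'
  have hq0' : 1 - p ≠ 0 := hq0.ne'
  -- summability of the two series
  have F1 : ∀ n, pmf A p (n + 2) * tail B p (n + 2) =
      (p * (1 - p) / (p - (1 - p))) * (1 / p * (tail B p (n + 2) * p ^ (n + 2)) -
        1 / (1 - p) * (tail B p (n + 2) * (1 - p) ^ (n + 2))) := by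
    intro n
    rw [pA, tailA p hp]
    field_simp
    ring
  have F2 : ∀ n, pmf A p (n + 2) * pmf B p (n + 2) =
      (p * (1 - p) / (p - (1 - p))) * ((tail B p (n + 1) * p ^ (n + 1) -
        tail B p (n + 1) * (1 - p) ^ (n + 1)) - (1 / p * (tail B p (n + 2) * p ^ (n + 2)) -
        1 / (1 - p) * (tail B p (n + 2) * (1 - p) ^ (n + 2)))) := by
    intro n
    rw [pA, tailA p hp, show n + 2 = (n + 1) + 1 by ring, pmf_succ]
    field_simp
    ring
  have G1 : Summable (fun n => 1 / p * (tail B p (n + 2) * p ^ (n + 2)) -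
        1 / (1 - p) * (tail B p (n + 2) * (1 - p) ^ (n + 2))) :=
    (sp2.mul_left _).sub (sq2.mul_left _)
  have G2 : Summable (fun n => tail B p (n + 1) * p ^ (n + 1) -
        tail B p (n + 1) * (1 - p) ^ (n + 1)) := sp1.sub sq1
  have T1 : ∑' n, pmf A p n * tail B p n = (p * (1 - p) / (p - (1 - p))) *
      (1 / p * (S p p - 1 - p) - 1 / (1 - p) * (S p (1 - p) - 1 - (1 - p))) := by
    have hsum : Summable (fun n => pmf A p n * tail B p n) := by
      rw [← summable_nat_add_iff 2]
      simp only [F1]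
      exact G1.mul_left _
    have := hsum.sum_add_tsum_nat_add 2
    simp only [Finset.sum_range_succ, Finset.sum_range_zero, pA0, pA1, F1] at this
    rw [tsum_mul_left, Summable.tsum_sub (sp2.mul_left _) (sq2.mul_left _), tsum_mul_left,
      tsum_mul_left, tp2, tq2, Sp, Sq] at this
    linarith
  have T2 : ∑' n, pmf A p n * pmf B p n = (p * (1 - p) / (p - (1 - p))) *
      (((S p p - 1) - (S p (1 - p) - 1)) -
        (1 / p * (S p p - 1 - p) - 1 / (1 - p) * (S p (1 - p) - 1 - (1 - p)))) := by
    have hsum : Summable (fun n => pmf A p n * pmf B p n) := by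
      rw [← summable_nat_add_iff 2]
      simp only [F2]
      exact (G2.sub G1).mul_left _
    have := hsum.sum_add_tsum_nat_add 2
    simp only [Finset.sum_range_succ, Finset.sum_range_zero, pA0, pA1, F2] at this
    rw [tsum_mul_left, Summable.tsum_sub G2 G1, Summable.tsum_sub sp1 sq1,
      Summable.tsum_sub (sp2.mul_left _) (sq2.mul_left _), tsum_mul_left,
      tsum_mul_left, tp2, tq2, tp1, tq1, Sp, Sq] at this
    linarith
  unfold W
  rw [T1, T2]
  unfold Wc
  field_simp
  ring

theorem Wc_symm (p : ℝ) : Wc (1 - p) = Wc p := by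
  have e1 : S (1 - p) (1 - p) = S p (1 - p) := by unfold S; congr 1; ring
  have e2 : S (1 - p) (1 - (1 - p)) = S p p := by unfold S; congr 1; ring
  unfold Wc
  rw [e1, e2]
  have e3 : 1 - (1 - p) = p := by ring
  rw [e3]
  by_cases h : p - (1 - p) = 0
  · have h' : (1 - p) - p = 0 := by linarith
    rw [h, h']
    simp
  · have h' : (1 - p) - p ≠ 0 := fun e => h (by linarith)
    have h2 : (1 - p) - p = -(p - (1 - p)) := by ring
    rw [h2, div_neg]
    ring

theorem denom_pos (p z : ℝ) (hz : z < 1) :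
    0 < 1 - z + p ^ 2 * (1 - p) ^ 2 * z ^ 4 := by
  have : 0 ≤ p ^ 2 * (1 - p) ^ 2 * z ^ 4 := by positivity
  linarith

theorem Wc_cont : ContinuousOn Wc (Set.Icc (9 / 16) (15 / 16)) := by
  have hS1 : ContinuousOn (fun p => S p p) (Set.Icc (9 / 16) (15 / 16)) := by
    unfold S
    apply ContinuousOn.div continuousOn_const (by fun_prop)
    intro p hp
    exact (denom_pos p p (by linarith [hp.2])).ne'
  have hS2 : ContinuousOn (fun p => S p (1 - p)) (Set.Icc (9 / 16) (15 / 16)) := by
    unfold S
    apply ContinuousOn.div continuousOn_const (by fun_prop)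
    intro p hp
    exact (denom_pos p (1 - p) (by linarith [hp.1])).ne'
  unfold Wc
  apply ContinuousOn.mul
  · apply ContinuousOn.div (by fun_prop) (by fun_prop)
    intro p hp
    have := hp.1
    intro h
    linarith
  · apply ContinuousOn.sub
    · apply ContinuousOn.mul (hS1.sub continuousOn_const)
      apply ContinuousOn.add continuousOn_const
      apply ContinuousOn.div continuousOn_const (by fun_prop)
      intro p hp
      have := hp.1
      intro h
      linarith
    · apply ContinuousOn.mul (hS2.sub continuousOn_const)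
      apply ContinuousOn.add continuousOn_const
      apply ContinuousOn.div continuousOn_const (by fun_prop)
      intro p hp
      have := hp.2
      intro h
      linarith

theorem val1 : Wc (13 / 16) < Wc (9 / 16) := by
  unfold Wc S
  norm_num

theorem val2 : Wc (13 / 16) < Wc (15 / 16) := by
  unfold Wc S
  norm_num

/-- There are two patterns for which `W` is non-constant on `(0,1)` and has at least two local
extrema in `(0,1)`. -/
theorem result : ∃ A B : List Bool, A ≠ [] ∧ B ≠ [] ∧
    (∃ p ∈ Set.Ioo (0 : ℝ) 1, ∃ p' ∈ Set.Ioo (0 : ℝ) 1, W A B p ≠ W A B p') ∧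
    ∃ x ∈ Set.Ioo (0 : ℝ) 1, ∃ y ∈ Set.Ioo (0 : ℝ) 1, x ≠ y ∧
      IsLocalExtr (W A B) x ∧ IsLocalExtr (W A B) y := by
  refine ⟨A, B, hA, hB, ?_, ?_⟩
  · refine ⟨13 / 16, by norm_num, 9 / 16, by norm_num, ?_⟩
    rw [W_eq _ (by norm_num) (by norm_num) (by norm_num),
      W_eq _ (by norm_num) (by norm_num) (by norm_num)]
    exact val1.ne
  · obtain ⟨x, hx, hmin⟩ := isCompact_Icc.exists_isMinOn
      (Set.nonempty_Icc.mpr (by norm_num : (9 / 16 : ℝ) ≤ 15 / 16)) Wc_cont
    have hmid : (13 / 16 : ℝ) ∈ Set.Icc (9 / 16 : ℝ) (15 / 16) := by norm_num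
    have hxm : Wc x ≤ Wc (13 / 16) := hmin hmid
    have hx1 : 9 / 16 < x := by
      rcases hx.1.lt_or_eq with h | h
      · exact h
      · exfalso
        rw [← h] at hxm
        exact absurd val1 (not_lt.mpr hxm)
    have hx2 : x < 15 / 16 := by
      rcases hx.2.lt_or_eq with h | h
      · exact h
      · exfalso
        rw [h] at hxm
        exact absurd val2 (not_lt.mpr hxm)
    have hWx : W A B x = Wc x := W_eq x (by linarith) (by linarith) (by intro h; linarith)
    have hWx' : W A B (1 - x) = Wc x := by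
      rw [W_eq (1 - x) (by linarith) (by linarith) (by intro h; linarith), Wc_symm]
    refine ⟨x, ⟨by linarith, by linarith⟩, 1 - x, ⟨by linarith, by linarith⟩,
      by intro h; linarith, Or.inl ?_, Or.inl ?_⟩
    · have hn : Set.Ioo (9 / 16 : ℝ) (15 / 16) ∈ nhds x := Ioo_mem_nhds hx1 hx2
      filter_upwards [hn] with y hy
      rw [hWx, W_eq y (by linarith [hy.1]) (by linarith [hy.2])
        (by intro h; linarith [hy.1])]
      exact hmin (Set.Ioo_subset_Icc_self hy)
    · have hn : Set.Ioo (1 / 16 : ℝ) (7 / 16) ∈ nhds (1 - x) :=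
        Ioo_mem_nhds (by linarith) (by linarith)
      filter_upwards [hn] with y hy
      rw [hWx', W_eq y (by linarith [hy.1]) (by linarith [hy.2])
        (by intro h; linarith [hy.2]), ← Wc_symm y]
      apply hmin
      constructor <;> linarith [hy.1, hy.2]

end Pool.Agent.Results.MP_cbbafe_pr.TwoExtrema
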